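import Mathlib
import Pool.Agent.N719.QC.Final

set_option autoImplicit false

namespace Pool.Agent.Results.MP_3c5a12_nt.CubePower

open Finset Polynomial

/-- The embedding of `ℤ[q]` in `ℚ(q)`; the indeterminate `q` is `RatFunc.X`. -/
noncomputable def toQ : ℤ[X] →+* RatFunc ℚ :=
  (algebraMap ℚ[X] (RatFunc ℚ)).comp (mapRingHom (Int.castRingHom ℚ))

/-- `[m] = (1 - q^m) / (1 - q)` -/
noncomputable def qint (m : ℤ) : RatFunc ℚ := (1 - RatFunc.X ^ m) / (1 - RatFunc.X)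

/-- `(a; p)_k = (1 - a) (1 - a p) ... (1 - a p^(k-1))` -/
noncomputable def poch (a p : RatFunc ℚ) (k : ℕ) : RatFunc ℚ := ∏ j ∈ range k, (1 - a * p ^ j)

/-- `S_d(n)` of the problem -/
noncomputable def S (d n : ℕ) : RatFunc ℚ :=
  ∑ k ∈ range n, qint (2 * (d : ℤ) * k + 1) *
    (poch RatFunc.X (RatFunc.X ^ d) k / poch (RatFunc.X ^ d) (RatFunc.X ^ d) k) ^ d *
    RatFunc.X ^ (d * (d - 3) * k / 2)

/-- `R ≡ 0` modulo `Φ_n(q)^j`: `R = Φ_n^j A / B` with `A, B ∈ ℤ[q]` and `Φ_n ∤ B`. -/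
def CongZero (R : RatFunc ℚ) (n j : ℕ) : Prop :=
  ∃ A B : ℤ[X], R = toQ (cyclotomic n ℤ ^ j * A) / toQ B ∧ ¬ cyclotomic n ℤ ∣ B

theorem S_eq (d n : ℕ) (hd : Odd d) (hd5 : 5 ≤ d) :
    S d n = N719QC.Sgen d n (d * (d - 3) / 2) 1 := by
  have h2 : 2 ∣ d * (d - 3) := by
    obtain ⟨c, hc⟩ := hd
    exact Dvd.dvd.mul_left ⟨c - 1, by omega⟩ d
  unfold S N719QC.Sgen qint poch
  refine sum_congr rfl fun k _ => ?_
  rw [Nat.div_mul_right_comm h2, zpow_one]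
  ring

/-- **Answer to Q1.** -/
theorem result : ∀ d n : ℕ, Odd d → 5 ≤ d → 0 < n → (n : ℤ) ≡ -1 [ZMOD d] →
    CongZero (S d n) n 3 := by
  intro d n hd hd5 hn h
  obtain ⟨c, hc⟩ := hd
  have hdvd : (d : ℤ) ∣ n + 1 := by
    have := Int.ModEq.dvd h.symm
    rwa [sub_neg_eq_add] at this
  have hn2 : 2 ≤ n := by
    by_contra hlt
    have h1 : n = 1 := by omega
    rw [h1] at hdvd
    have := Int.le_of_dvd (by norm_num) hdvd
    push_cast at this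
    omega
  have hee : 2 * ((c : ℤ) + 1) = 1 + d := by omega
  have hw : ((d * (d - 3) / 2 : ℕ) : ℤ) = ((c : ℤ) + 1) * (d - 2) - 1 * (d - 1) := by
    have h1 : d * (d - 3) / 2 = d * (c - 1) := by
      have : d * (d - 3) = 2 * (d * (c - 1)) := by
        have : d - 3 = 2 * (c - 1) := by omega
        rw [this]; ring
      rw [this, Nat.mul_div_cancel_left _ (by norm_num)]
    rw [h1]
    have h2 : (d : ℤ) = 2 * c + 1 := by exact_mod_cast hc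
    have h3 : ((c - 1 : ℕ) : ℤ) = c - 1 := by omega
    push_cast [h3]
    rw [h2]; ring
  rw [S_eq d n ⟨c, hc⟩ hd5]
  obtain ⟨A, B, hB, hR⟩ := N719QC.caseA n d _ hn2 1 (c + 1) (Or.inl rfl) ⟨c, hc⟩ hd5 hee hw hdvd
  exact ⟨A, B, hR, hB⟩

end Pool.Agent.Results.MP_3c5a12_nt.CubePower
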